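import Mathlib
import Pool.Agent.Run7.h742.VI.Univ

/-! Vojta's inequality with truncated counting function for integral points of affine space: it
holds for almost all points with denominators in any given set, in particular for almost all
`S`-integral points, for every `S`. -/

set_option autoImplicit false

namespace Pool.Agent.Results.MP_9ec3f0_nt.IntegralPointsOfAffineSpace

open MvPolynomial

/-- `max |x_j|`; the height `h(x)` of a point of `ℙ^n(ℚ)` with coprime integer coordinates `x` is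
`log (H x)` -/
def H {n : ℕ} (x : Fin (n + 1) → ℤ) : ℕ := Finset.univ.sup fun j => (x j).natAbs

/-- the height of a point with coprime integer coordinates -/
noncomputable def h {n : ℕ} (x : Fin (n + 1) → ℤ) : ℝ := Real.log (H x)

/-- the rational points of the affine space `𝔸^n = ℙ^n ∖ H_∞`, `H_∞ : x 0 = 0`, with denominator in
`M` and with `H x ≤ B`: the point `(x 1 / x 0, …, x n / x 0)` is given by its coprime integer
coordinates with `x 0 > 0`, and `x 0` is its denominator -/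
def Points (n : ℕ) (M : Set ℕ) (B : ℕ) : Set (Fin (n + 1) → ℤ) :=
  {x | Finset.univ.gcd x = 1 ∧ 0 < x 0 ∧ (x 0).toNat ∈ M ∧ H x ≤ B}

/-- the denominators of the `S`-integral points, where `S` is a finite set of primes (and the
infinite place): `Points n (Integral S) B` is the set of the `S`-integral points of `𝔸^n` with
`H x ≤ B` -/
def Integral (S : Finset ℕ) : Set ℕ := {m | ∀ p : ℕ, p.Prime → p ∣ m → p ∈ S}

/-- the hypersurfaces `D_j : F j = 0` of degree `k j` are distinct and irreducible over `ℚ`, and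
none of them is the hyperplane `H_∞` -/
def Components {n r : ℕ} (F : Fin r → MvPolynomial (Fin (n + 1)) ℤ) (k : Fin r → ℕ) : Prop :=
  (∀ j, (F j).IsHomogeneous (k j)) ∧ (∀ j, Irreducible (map (Int.castRingHom ℚ) (F j))) ∧
  (∀ i j, i ≠ j →
    ¬ Associated (map (Int.castRingHom ℚ) (F i)) (map (Int.castRingHom ℚ) (F j))) ∧
  ∀ j, ¬ Associated (map (Int.castRingHom ℚ) (F j)) (X 0)

/-- the sum of `log p` over the primes `p` outside `S` which divide `a`: for a point with coprime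
integer coordinates `x`, `N1 S (∏ j, F j (x))` is the truncated counting function
`N_S^{(1)}(∑ j, D_j, x)` and `N1 S (x 0 * ∏ j, F j (x))` is `N_S^{(1)}(H_∞ + ∑ j, D_j, x)` -/
noncomputable def N1 (S : Finset ℕ) (a : ℤ) : ℝ := ∑ p ∈ a.natAbs.primeFactors \ S, Real.log p

/-- the points of `D_j` and the points `x` with `N_S^{(1)}(∑ j, D_j, x) < θ h(x)` -/
def Exceptional {n r : ℕ} (F : Fin r → MvPolynomial (Fin (n + 1)) ℤ) (S : Finset ℕ) (θ : ℝ) :
    Set (Fin (n + 1) → ℤ) :=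
  {x | (∃ j, eval x (F j) = 0) ∨ N1 S (∏ j, eval x (F j)) < θ * h x}

theorem N1_mono (S : Finset ℕ) {a b : ℤ} (hab : a ∣ b) (hb : b ≠ 0) : N1 S a ≤ N1 S b := by
  unfold N1
  refine Finset.sum_le_sum_of_subset_of_nonneg ?_ fun p _ _ => Real.log_natCast_nonneg _
  refine Finset.sdiff_subset_sdiff (Nat.primeFactors_mono ?_ ?_) le_rfl
  · exact Int.natAbs_dvd_natAbs.2 hab
  · exact Int.natAbs_ne_zero.2 hb

/-- **Vojta's inequality for almost all points with denominators in any given set.** -/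
theorem result : ∀ n : ℕ, 1 ≤ n →
    -- the sets of points are finite, and large
    (∀ (M : Set ℕ) (B : ℕ), (Points n M B).Finite) ∧
    (∀ δ : ℝ, 0 < δ → ∃ c : ℝ, 0 < c ∧ ∀ B m : ℕ, 1 ≤ m → m ≤ B →
      c * (B : ℝ) ^ ((n : ℝ) - δ) ≤ ((Points n {m} B).ncard : ℝ)) ∧
    -- a power saving, uniform in the set `M` of the denominators
    (∀ (r : ℕ) (F : Fin r → MvPolynomial (Fin (n + 1)) ℤ) (k : Fin r → ℕ), Components F k →
      ∀ (S : Finset ℕ) (θ : ℝ), θ < ∑ j, ((min (k j) 2 : ℕ) : ℝ) →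
        ∃ c : ℝ, 0 < c ∧ ∃ C : ℝ, 0 < C ∧ ∀ B : ℕ, 1 ≤ B → ∀ M : Set ℕ,
          ((Points n M B ∩ Exceptional F S θ).ncard : ℝ) ≤
            C * (B : ℝ) ^ (-c) * ((Points n M B).ncard : ℝ)) ∧
    -- one exceptional set for all divisors, all `S` and all sets of denominators
    ∃ E : Set (Fin (n + 1) → ℤ),
      (∀ ε : ℝ, 0 < ε → ∃ B₀ : ℕ, ∀ B : ℕ, B₀ ≤ B → ∀ M : Set ℕ,
        ((Points n M B ∩ E).ncard : ℝ) ≤ ε * ((Points n M B).ncard : ℝ)) ∧
      ∀ (r : ℕ) (F : Fin r → MvPolynomial (Fin (n + 1)) ℤ) (k : Fin r → ℕ), Components F k →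
        ∀ S : Finset ℕ,
          (∀ θ : ℝ, θ < ∑ j, ((min (k j) 2 : ℕ) : ℝ) → ∃ T : ℕ, ∀ x : Fin (n + 1) → ℤ,
            Finset.univ.gcd x = 1 → 0 < x 0 → x ∉ E → T < H x →
              (∀ j, eval x (F j) ≠ 0) ∧ θ * h x ≤ N1 S (∏ j, eval x (F j))) ∧
          -- Vojta's inequality for `D = H_∞ + ∑ j, D_j`, `K + D` of degree `∑ j, k j - n`
          (∑ j, (k j - 2) ≤ n → ∀ ε : ℝ, 0 < ε → ∃ T : ℕ, ∀ x : Fin (n + 1) → ℤ,
            Finset.univ.gcd x = 1 → 0 < x 0 → x ∉ E → T < H x →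
              ((∑ j, (k j : ℝ)) - n - ε) * h x ≤ N1 S (x 0 * ∏ j, eval x (F j))) := by
  intro n hn
  refine ⟨fun M B => Run7.h742.VI.Pts_finite n M B, fun δ hδ => Run7.h742.VI.Pts_lower hn hδ,
    fun r F k hF S θ hθ => Run7.h742.VI.bad_single hn F k hF S θ hθ, ?_⟩
  obtain ⟨E, hE, hall⟩ := Run7.h742.VI.universal hn
  have key : ∀ (r : ℕ) (F : Fin r → MvPolynomial (Fin (n + 1)) ℤ) (k : Fin r → ℕ),
      Components F k → ∀ (S : Finset ℕ) (θ : ℝ), θ < ∑ j, ((min (k j) 2 : ℕ) : ℝ) →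
        ∃ T : ℕ, ∀ x : Fin (n + 1) → ℤ, x ∉ E → T < H x →
              (∀ j, eval x (F j) ≠ 0) ∧ θ * h x ≤ N1 S (∏ j, eval x (F j)) := by
    intro r F k hF S θ hθ
    obtain ⟨T, hT⟩ := hall r F k hF S θ hθ
    refine ⟨T, fun x hxE hTx => ?_⟩
    have h1 : x ∉ Run7.h742.VI.Bad F S θ := fun hb => hxE (hT x hb hTx)
    unfold Run7.h742.VI.Bad at h1
    rw [Set.mem_ofPred_eq, not_or] at h1
    push Not at h1
    exact ⟨h1.1, h1.2⟩
  refine ⟨E, hE, fun r F k hF S => ⟨fun θ hθ => ?_, fun hk ε hε => ?_⟩⟩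
  · obtain ⟨T, hT⟩ := key r F k hF S θ hθ
    exact ⟨T, fun x _ _ hxE hTx => hT x hxE hTx⟩
  · have hsum : (∑ j, (k j : ℝ)) - n ≤ ∑ j, ((min (k j) 2 : ℕ) : ℝ) := by
      have h1 : ∑ j, k j ≤ ∑ j, (min (k j) 2) + ∑ j, (k j - 2) := by
        rw [← Finset.sum_add_distrib]
        exact Finset.sum_le_sum fun j _ => by omega
      have h2 : ∑ j, k j ≤ ∑ j, (min (k j) 2) + n := by omega
      have h3 : ((∑ j, k j : ℕ) : ℝ) ≤ ((∑ j, (min (k j) 2) + n : ℕ) : ℝ) := by exact_mod_cast h2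
      rw [Nat.cast_add, Nat.cast_sum, Nat.cast_sum] at h3
      linarith
    obtain ⟨T, hT⟩ := key r F k hF S ((∑ j, (k j : ℝ)) - n - ε) (by linarith)
    refine ⟨T, fun x _ hx0 hxE hTx => ?_⟩
    obtain ⟨h1, h2⟩ := hT x hxE hTx
    refine h2.trans (N1_mono S (Dvd.intro_left _ rfl) ?_)
    exact mul_ne_zero hx0.ne' (Finset.prod_ne_zero_iff.2 fun j _ => h1 j)

end Pool.Agent.Results.MP_9ec3f0_nt.IntegralPointsOfAffineSpace
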