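import Pool.Agent.Run7.h151.FN.Final

/-!
# The separate truncated counting functions of several points of the projective line

`K` is a number field, `S` a finite set of primes, `D = α_1 + … + α_q` a sum of `q ≥ 3` different
`K`-rational points of the projective line, so that `N_S^(1)(D, P)` is the sum of the
`N_S^(1)(α_l, P)` up to a bounded quantity. Heights and counting functions are relative to `K`. For
given sizes `a_1 ≤ a_2 ≤ a_3 ≤ …` of the terms, not too different, we determine the number of ALL
points `P` of the line over `K`, of whatever height, with `exp N_S^(1)(α_l, P) ≤ X ^ (a_l)` for all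
`l`: it is

  `X ^ (a_1 + a_2) * exp ((√(8 (a_3 - a_1)) + √(8 (a_3 - a_2)) + o(1)) √(log X / log log X))`.

For `K = ℚ` and `D = 0 + (-1) + ∞` these are the abc triples of whatever height whose three radicals
are at most `X ^ (a_1)`, `X ^ (a_2)`, `X ^ (a_3)`.

Proof. The points with `h(P) ≤ m` and `N_S^(1)(α_l, P) ≤ (1 - κ_l) h(P) + O(1)` are at most
`exp ((2 - ∑ κ_l) m + ∑ √(8 κ_l m / log m) + ε √(m / log m))`, uniformly in the `κ_l` (helper585,
`Run7/h585/LD/Unif`, after N906/QP of the starting library); for the windows `m - 1 < h(P) ≤ m` take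
`κ_l = max (0, 1 - a_l log X / m)`. The exponent `2 - ∑ κ_l` is constant for `a_2 log X ≤ m ≤ a_3 log X`,
and the second order term is largest at `m = a_3 log X`. The points of height at least
`(a_3 + η) log X` are fewer by a power of `X`, whatever their height (starting library, R365/SH). The
lower bound is the joint lower bound of N906/QP at the height `a_3 log X`.
-/

set_option autoImplicit false

namespace Pool.Agent.Results.MP_9ec3f0_nt.SeparateCountingFunctions

open NumberField IsDedekindDomain Filter Topology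

section

variable {K : Type} [Field K] [NumberField K]

/-- the local height `λ_v(a, P) = log (max |P_i|_v max |a_i|_v / |P_0 a_1 - P_1 a_0|_v)` relative to
the point `a = [a 0 : a 1]`, for a prime `v` of `K`, where `|π|_v = 1 / N(v)` for a uniformiser `π` -/
noncomputable def localHeight (v : HeightOneSpectrum (𝓞 K)) (a : Fin 2 → K)
    (P : Projectivization K (Fin 2 → K)) : ℝ :=
  Real.log (max (FinitePlace.mk v (P.rep 0)) (FinitePlace.mk v (P.rep 1)) *
    max (FinitePlace.mk v (a 0)) (FinitePlace.mk v (a 1)) /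
      FinitePlace.mk v (P.rep 0 * a 1 - P.rep 1 * a 0))

/-- the truncated counting function `N_S^(1)(a, P)` of the point `a`: the sum of `log N(v)` over the
primes `v` outside `S` with `λ_v(a, P) > 0` -/
noncomputable def counting (S : Set (HeightOneSpectrum (𝓞 K))) (a : Fin 2 → K)
    (P : Projectivization K (Fin 2 → K)) : ℝ :=
  ∑ᶠ v ∈ {v : HeightOneSpectrum (𝓞 K) | v ∉ S ∧ 0 < localHeight v a P},
    Real.log (Ideal.absNorm v.asIdeal : ℝ)

/-- the points `P` of the line over `K`, none of the `α_l` and of whatever height, with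
`N_S^(1)(α_l, P) ≤ a_l log X` for all `l` -/
def Points (S : Set (HeightOneSpectrum (𝓞 K))) {q : ℕ} (α : Fin q → Fin 2 → K) (a : Fin q → ℝ)
    (X : ℝ) : Set (Projectivization K (Fin 2 → K)) :=
  {P | (∀ l, P.rep 0 * α l 1 - P.rep 1 * α l 0 ≠ 0) ∧ ∀ l, counting S (α l) P ≤ a l * Real.log X}

end

/-- **Theorem.** Let `K` be a number field, `S` a finite set of primes of `K` and `α_0, …, α_(q-1)`,
`q = n + 3`, different points of the projective line over `K`. There is `θ > 0` such that for all real
numbers `0 < a_0 ≤ a_1 ≤ … ≤ a_(q-1)` with `a_0 < a_2 < (1 + θ) a_0` the number `V(X)` of the points `P`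
of the line over `K`, different from the `α_l` and of whatever height, with
`N_S^(1)(α_l, P) ≤ a_l log X` for all `l` is finite, and
`(log V(X) - (a_0 + a_1) log X) / √(log X / log log X)` tends to
`√(8 (a_2 - a_0)) + √(8 (a_2 - a_1))`. -/
theorem result : ∀ (K : Type) [Field K] [NumberField K] (S : Set (HeightOneSpectrum (𝓞 K))) (n : ℕ)
    (α : Fin (n + 3) → Fin 2 → K), S.Finite → (∀ l, α l ≠ 0) →
    (∀ l l', l ≠ l' → α l 0 * α l' 1 - α l 1 * α l' 0 ≠ 0) →
    ∃ θ : ℝ, 0 < θ ∧ ∀ a : Fin (n + 3) → ℝ, Monotone a → 0 < a 0 → a 0 < a 2 →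
      a 2 < (1 + θ) * a 0 →
      (∀ X : ℝ, (Points S α a X).Finite) ∧
      Tendsto (fun X : ℝ => (Real.log ((Points S α a X).ncard : ℝ) - (a 0 + a 1) * Real.log X) /
          √(Real.log X / Real.log (Real.log X))) atTop
        (𝓝 (√(8 * (a 2 - a 0)) + √(8 * (a 2 - a 1)))) := by
  intro K _ _ S n α hS hα0 hα
  obtain ⟨θ, h0, h⟩ := Pool.Agent.Run7.h151.FN.JA_final (n := n) hS hα0 hα
  refine ⟨θ, h0, fun a h1 h2 h3 h4 => ?_⟩
  obtain ⟨g1, g2⟩ := h a h1 h2 h3 h4
  exact ⟨fun X => g1 (Real.log X), g2⟩

end Pool.Agent.Results.MP_9ec3f0_nt.SeparateCountingFunctions
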