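import Pool.Agent.Run7.h95.IP.Part
import Pool.Agent.Run7.h95.IP.Thin

/-!
# Vojta's inequality with truncated counting function on the projective line, uniformly in `S`

`K` is a number field, `D` the sum of `q ≥ 3` different `K`-rational points of the projective line.
For a nonzero ideal `n` let `S = S(n)` consist of the infinite places and the primes dividing `n`.
The constant in Vojta's inequality
`N_S^{(1)}(D, P) ≥ h_{K_X + D}(P) - ε h(P) - C = (q - 2 - ε) h(P) - C` depends on `S`. We prove that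
for almost all ideals `n`, for ALL points `P` of the line over `K`, off `D`, of height greater than
`ψ(N(n))`, where `ψ` is any function tending to infinity, as slowly as we like,
`N_S^{(1)}(D, P) ≥ (1 - 2/q - ε) N^{(1)}(D, P)`, where `N^{(1)}` is the truncated counting function
with respect to the infinite places. So for almost all `S` the inequality of Vojta holds for all
points of height greater than `ψ(N(n))` outside of one thin set of points, which does not depend on
`S`.
-/

set_option autoImplicit false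

namespace Pool.Agent.Results.MP_9ec3f0_nt.UniformInS

open NumberField IsDedekindDomain Filter Topology

variable {K : Type} [Field K] [NumberField K] {q : ℕ}

/-- coordinates of the points of the projective line: `none` is `(1 : 0)`, `x` is `(x : 1)` -/
def coords : Option K → K × K
  | none => (1, 0)
  | some x => (x, 1)

/-- the points of the projective line over `K` different from the `α l` -/
def Points (α : Fin q → K × K) : Type :=
  {x : Option K // ∀ l, (coords x).1 * (α l).2 - (coords x).2 * (α l).1 ≠ 0}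

/-- the logarithmic height, relative to `K` -/
noncomputable def height (p : K × K) : ℝ :=
  ∑ w : InfinitePlace K, (w.mult : ℝ) * Real.log (max (w p.1) (w p.2)) +
    ∑ᶠ v : HeightOneSpectrum (𝓞 K),
      Real.log (max (FinitePlace.mk v p.1) (FinitePlace.mk v p.2))

/-- the local height of the point `a` at the finite place `v` -/
noncomputable def lam (v : HeightOneSpectrum (𝓞 K)) (a p : K × K) : ℝ :=
  Real.log (max (FinitePlace.mk v p.1) (FinitePlace.mk v p.2) *
    max (FinitePlace.mk v a.1) (FinitePlace.mk v a.2) /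
      FinitePlace.mk v (p.1 * a.2 - p.2 * a.1))

/-- the local height of the divisor `D`, the sum of the points `α l`, at the finite place `v` -/
noncomputable def lamD (α : Fin q → K × K) (v : HeightOneSpectrum (𝓞 K)) (x : Points α) : ℝ :=
  ∑ l, lam v (α l) (coords x.1)

/-- the truncated counting function `N_S^{(1)}(D, x)`, where `S` consists of the infinite places and
the primes dividing `n` -/
noncomputable def counting (α : Fin q → K × K) (n : Ideal (𝓞 K)) (x : Points α) : ℝ :=
  ∑ᶠ v ∈ {v : HeightOneSpectrum (𝓞 K) | ¬ v.asIdeal ∣ n ∧ 0 < lamD α v x},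
    Real.log (Ideal.absNorm v.asIdeal : ℝ)

/-- the points with `N_S^{(1)}(D, x) < η N^{(1)}(D, x)`, where `S` consists of the infinite places
and the primes dividing `n`, and `N^{(1)}` is the counting function for the infinite places only -/
def Small (α : Fin q → K × K) (η : ℝ) (n : Ideal (𝓞 K)) : Set (Points α) :=
  {x | counting α n x < η * counting α ⊤ x}

/-- the nonzero ideals of norm at most `N` -/
def Ideals (K : Type) [Field K] [NumberField K] (N : ℝ) : Set (Ideal (𝓞 K)) :=
  {n | n ≠ ⊥ ∧ (Ideal.absNorm n : ℝ) ≤ N}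

/-- the set of the nonzero ideals with the property `A` has the natural density `δ` -/
def Density (A : Ideal (𝓞 K) → Prop) (δ : ℝ) : Prop :=
  Tendsto (fun N : ℝ => ({n ∈ Ideals K N | A n}.ncard : ℝ) / ((Ideals K N).ncard : ℝ)) atTop (𝓝 δ)

open Run7.h283.UE in
theorem ideals_eq (N : ℝ) : Ideals K N = (IF K N : Set (Ideal (𝓞 K))) := by
  ext n
  rw [Finset.mem_coe, mem_IF]
  rfl

open Run7.h283.UE in
theorem ncard_eq (N : ℝ) : ((Ideals K N).ncard : ℝ) = cnt K N := by
  rw [ideals_eq, Set.ncard_coe_finset]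
  rfl

open Classical Run7.h283.UE in
theorem ncard_sep (N : ℝ) (A : Ideal (𝓞 K) → Prop) :
    {n ∈ Ideals K N | A n}.ncard = ((IF K N).filter A).card := by
  rw [← Set.ncard_coe_finset, Finset.coe_filter]
  congr 1
  ext n
  rw [ideals_eq]
  rfl

open Classical Run7.h283.UE in
theorem density_eq {A : Ideal (𝓞 K) → Prop} {δ : ℝ} : Density A δ ↔ HasDens K A δ := by
  unfold HasDens Density
  have e : (fun N : ℝ => ({n ∈ Ideals K N | A n}.ncard : ℝ) / ((Ideals K N).ncard : ℝ)) =
      fun N : ℝ => ((((IF K N).filter A).card : ℕ) : ℝ) / cnt K N := by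
    funext N
    rw [ncard_eq, ncard_sep]
  rw [e]

theorem density_zero_mono {A B : Ideal (𝓞 K) → Prop} (h : Density B 0) (hAB : ∀ n, A n → B n) :
    Density A 0 := by
  refine squeeze_zero' (Eventually.of_forall fun N => by positivity) ?_ h
  filter_upwards with N
  refine div_le_div_of_nonneg_right ?_ (Nat.cast_nonneg _)
  rw [Nat.cast_le, ncard_sep, ncard_sep]
  classical
  refine Finset.card_le_card fun n hn => ?_
  rw [Finset.mem_filter] at hn ⊢
  exact ⟨hn.1, hAB n hn.2⟩

theorem coords_eq (x : Option K) : coords x = Run7.h95.IP.co x := by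
  cases x <;> rfl

open Pool.Agent.H691R3 Run7.h95.IP in
theorem lamD_pos {α : Fin q → K × K} (hα0 : ∀ l, α l ≠ 0) (x : Points α)
    (v : HeightOneSpectrum (𝓞 K)) : 0 < lamD α v x ↔ v ∈ IS α x.1 := by
  have hx : ∀ l, (co x.1).1 * (α l).2 - (co x.1).2 * (α l).1 ≠ 0 := fun l => by
    rw [← coords_eq]
    exact x.2 l
  rw [mem_IS hα0 ⟨x.1, hx⟩]
  have h1 : ∀ l, lam v (α l) (coords x.1) = lamA (fv v) (co x.1) (α l) := fun l => by
    rw [coords_eq]
    rfl
  have h2 : ∀ l, 0 ≤ lamA (fv v) (co x.1) (α l) := fun l =>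
    lamF_nonneg v (co_ne x.1) (hα0 l) (hx l)
  unfold lamD
  simp only [h1]
  constructor
  · intro h
    by_contra hcon
    push Not at hcon
    rw [Finset.sum_eq_zero fun l _ => hcon l] at h
    exact lt_irrefl _ h
  · rintro ⟨l, hl⟩
    exact Finset.sum_pos' (fun l _ => h2 l) ⟨l, Finset.mem_univ l, lt_of_le_of_ne (h2 l) (Ne.symm hl)⟩

/-- the points, in the two descriptions -/
def toPP (α : Fin q → K × K) : Points α ≃ Run7.h95.IP.PP α where
  toFun x := ⟨x.1, fun l => by rw [← coords_eq]; exact x.2 l⟩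
  invFun x := ⟨x.1, fun l => by rw [coords_eq]; exact x.2 l⟩
  left_inv _ := rfl
  right_inv _ := rfl

open Classical in
/-- **Uniformity in `S` of Vojta's inequality on the projective line.** Let `K` be a number field and
let `α_1, …, α_q` be `q ≥ 3` different points of the projective line over `K`, `D` their sum. For a
nonzero ideal `n` we write `N_n` for `N_S^{(1)}(D, ·)`, where `S` consists of the infinite places and
the primes dividing `n`; in particular `N_1` is the counting function with respect to the infinite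
places. Let `ψ` be a function tending to infinity.
(1) Let `η < 1 - 2/q`. For almost all ideals `n` (all but a set of natural density zero) all points
`x` with `h(x) > ψ(N(n))` satisfy `N_n(x) ≥ η N_1(x)`.
(2) For every `ε > 0` there is ONE set `E` of points, with at most `C X ^ (2/q - ν)` elements with
`exp N_1(x) ≤ X` (`ν > 0`; the number of all points with `exp N_1(x) ≤ X` is at least
`c X ^ (2/q)`), such that for all `ψ`, for almost all ideals `n` Vojta's inequality
`N_n(x) ≥ (q - 2 - ε) h(x)` holds for all points `x` outside `E` with `h(x) > ψ(N(n))`.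
(3) Let `η < 1 - 2/q`. The set `Small α η n` of all points with `N_n(x) < η N_1(x)` is finite for
every `n ≠ 0`, and it has a limit law: there are `w F ≥ 0`, for the finite sets `F` of points, with
`∑ w F = 1`, such that for every set `Φ` of sets of points the set of the ideals `n` with
`Small α η n ∈ Φ` has the natural density `∑ w F` over the `F` in `Φ`.
(4) Let `η < 1 - 2/q` and `δ > 0`. For all `Z, N ≥ 1` at most `C Z ^ (-(1 - 2/q - η) + δ) N` ideals
`n` of norm at most `N` have a point `x` with `exp N_1(x) > Z` in `Small α η n`. -/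
theorem result (K : Type) [Field K] [NumberField K] (q : ℕ) (hq : 3 ≤ q) (α : Fin q → K × K)
    (hα0 : ∀ l, α l ≠ 0) (hα : ∀ i j, i ≠ j → (α i).1 * (α j).2 - (α i).2 * (α j).1 ≠ 0) :
    (∀ η : ℝ, η < 1 - 2 / (q : ℝ) → ∀ ψ : ℝ → ℝ, Tendsto ψ atTop atTop →
      Density (fun n : Ideal (𝓞 K) => ¬ ∀ x : Points α,
        ψ (Ideal.absNorm n : ℝ) < height (coords x.1) →
          η * counting α ⊤ x ≤ counting α n x) 0) ∧
    (∀ ε : ℝ, 0 < ε → ∃ E : Set (Points α),
      (∃ C ν : ℝ, 0 < ν ∧ ∀ X : ℝ, 1 ≤ X →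
        {x : Points α | x ∈ E ∧ Real.exp (counting α ⊤ x) ≤ X}.Finite ∧
        ({x : Points α | x ∈ E ∧ Real.exp (counting α ⊤ x) ≤ X}.ncard : ℝ) ≤
          C * X ^ (2 / (q : ℝ) - ν)) ∧
      (∃ c X₀ : ℝ, 0 < c ∧ ∀ X : ℝ, X₀ ≤ X →
        {x : Points α | Real.exp (counting α ⊤ x) ≤ X}.Finite ∧
        c * X ^ (2 / (q : ℝ)) ≤ ({x : Points α | Real.exp (counting α ⊤ x) ≤ X}.ncard : ℝ)) ∧
      ∀ ψ : ℝ → ℝ, Tendsto ψ atTop atTop →
        Density (fun n : Ideal (𝓞 K) => ¬ ∀ x : Points α, x ∉ E →
          ψ (Ideal.absNorm n : ℝ) < height (coords x.1) →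
            (q - 2 - ε) * height (coords x.1) ≤ counting α n x) 0) ∧
    (∀ η : ℝ, η < 1 - 2 / (q : ℝ) →
      (∀ n : Ideal (𝓞 K), n ≠ ⊥ → (Small α η n).Finite) ∧
      ∃ w : Finset (Points α) → ℝ, (∀ F, 0 ≤ w F) ∧ HasSum w 1 ∧
        ∀ Φ : Set (Set (Points α)),
          Density (fun n => Small α η n ∈ Φ)
            (∑' F : Finset (Points α), if (F : Set (Points α)) ∈ Φ then w F else 0)) ∧
    (∀ η : ℝ, η < 1 - 2 / (q : ℝ) → ∀ δ : ℝ, 0 < δ → ∃ C : ℝ, ∀ Z N : ℝ, 1 ≤ Z → 1 ≤ N →
      ({n ∈ Ideals K N | ∃ x ∈ Small α η n, Z < Real.exp (counting α ⊤ x)}.ncard : ℝ) ≤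
        C * Z ^ (-(1 - 2 / (q : ℝ) - η) + δ) * N) := by
  have hqR : (3 : ℝ) ≤ q := by exact_mod_cast hq
  have hq0 : (0 : ℝ) < q := by linarith
  have hθ1 : 2 / (q : ℝ) < 1 := by
    rw [div_lt_one hq0]
    linarith
  have hθ0 : 0 < 2 / (q : ℝ) := by positivity
  have hα' : ∀ i j, i ≠ j → Pool.Agent.H691R3.wg (α i) (α j) ≠ 0 := fun i j hij => hα i j hij
  obtain ⟨S, hSdef⟩ : ∃ S : Points α → Finset (HeightOneSpectrum (𝓞 K)),
    S = fun x : Points α => Run7.h95.IP.IS α x.1 := ⟨_, rfl⟩
  have hmem : ∀ (x : Points α) (v : HeightOneSpectrum (𝓞 K)), 0 < lamD α v x ↔ v ∈ S x := by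
    intro x v
    rw [hSdef]
    exact lamD_pos hα0 x v
  have hcnt : ∀ (n : Ideal (𝓞 K)) (x : Points α), counting α n x =
      Real.log (Pool.Agent.TH876.Loc.nn ((S x).filter fun v => ¬ v.asIdeal ∣ n)) := by
    intro n x
    unfold counting
    have h1 : {v : HeightOneSpectrum (𝓞 K) | ¬ v.asIdeal ∣ n ∧ 0 < lamD α v x} =
        (((S x).filter fun v => ¬ v.asIdeal ∣ n : Finset (HeightOneSpectrum (𝓞 K))) :
          Set (HeightOneSpectrum (𝓞 K))) := by
      ext v
      rw [Finset.mem_coe, Finset.mem_filter, Set.mem_ofPred_eq, hmem]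
      exact and_comm
    rw [h1, finsum_mem_coe_finset, Run7.h95.IP.log_nn]
    rfl
  have htop : ∀ x : Points α, counting α ⊤ x = Real.log (Pool.Agent.TH876.Loc.nn (S x)) := by
    intro x
    rw [hcnt]
    congr 2
    refine Finset.filter_true_of_mem fun v _ h => ?_
    exact v.isPrime.ne_top (top_le_iff.1 (Ideal.dvd_iff_le.1 h))
  have hexp : ∀ x : Points α, Real.exp (counting α ⊤ x) = Pool.Agent.TH876.Loc.nn (S x) := by
    intro x
    rw [htop, Real.exp_log (Pool.Agent.TH876.Loc.nn_pos _)]
  have hsplit : ∀ (n : Ideal (𝓞 K)) (x : Points α), counting α ⊤ x = counting α n x +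
      Real.log (Pool.Agent.TH876.Loc.nn ((S x).filter fun v => v.asIdeal ∣ n)) := by
    intro n x
    rw [htop, hcnt, Run7.h95.IP.log_nn, Run7.h95.IP.log_nn, Run7.h95.IP.log_nn, add_comm]
    exact (Finset.sum_filter_add_sum_filter_not _ _ _).symm
  have hSmall : ∀ (η : ℝ) (n : Ideal (𝓞 K)), Small α η n = Run7.h95.IP.VV S (1 - η) n := by
    intro η n
    ext x
    have h1 : x ∈ Small α η n ↔ counting α n x < η * counting α ⊤ x := Iff.rfl
    have h2 : x ∈ Run7.h95.IP.VV S (1 - η) n ↔ Pool.Agent.TH876.Loc.nn (S x) ^ (1 - η) <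
        Pool.Agent.TH876.Loc.nn ((S x).filter fun v => v.asIdeal ∣ n) := Iff.rfl
    rw [h1, h2]
    have h3 := Pool.Agent.TH876.Loc.nn_pos (S x)
    have h4 := Pool.Agent.TH876.Loc.nn_pos ((S x).filter fun v => v.asIdeal ∣ n)
    rw [← Real.log_lt_log_iff (Real.rpow_pos_of_pos h3 _) h4, Real.log_rpow h3, ← htop]
    have h5 := hsplit n x
    constructor
    · intro h
      linarith
    · intro h
      linarith
  obtain ⟨c₂, hc₂, hup⟩ := Run7.h95.IP.count_upper hq hα0 hα'
  obtain ⟨c₁, X₀, hc₁, hX₀, hlow⟩ := Run7.h95.IP.count_lower hq hα0 hα'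
  have hup' : ∀ X : ℝ, 1 ≤ X → ∀ F : Finset (Points α),
      (∀ x ∈ F, Pool.Agent.TH876.Loc.nn (S x) ≤ X) → (F.card : ℝ) ≤ c₂ * X ^ (2 / (q : ℝ)) := by
    intro X hX F hF
    have h1 := hup X hX (F.image (toPP α)) (fun y hy => by
      obtain ⟨x, hx, rfl⟩ := Finset.mem_image.1 hy
      have := hF x hx
      rw [hSdef] at this
      exact this)
    rwa [Finset.card_image_of_injective _ (toPP α).injective] at h1
  have hS1 : Summable fun x : Points α => (Pool.Agent.TH876.Loc.nn (S x))⁻¹ :=
    Run7.h283.UE.summable_of_count _ (fun x => Pool.Agent.TH876.Loc.one_le_nn _) hc₂ hθ1 hup'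
  have hfin : ∀ X : ℝ, {x : Points α | Pool.Agent.TH876.Loc.nn (S x) ≤ X}.Finite := fun X =>
    Run7.h283.UE.fin_le hS1 X
  have hpart : ∀ η : ℝ, η < 1 - 2 / (q : ℝ) →
      Summable fun p : Run7.h95.IP.Part S (1 - η) =>
        (Pool.Agent.TH876.Loc.nn (Run7.h95.IP.pS S (1 - η) p))⁻¹ := fun η hη =>
    Run7.h95.IP.part_summable hθ0.le hc₂ hup' (by linarith)
  have main1 : ∀ η : ℝ, η < 1 - 2 / (q : ℝ) → ∀ ψ : ℝ → ℝ, Tendsto ψ atTop atTop →
      Density (fun n : Ideal (𝓞 K) => ¬ ∀ x : Points α,
        ψ (Ideal.absNorm n : ℝ) < height (coords x.1) →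
          η * counting α ⊤ x ≤ counting α n x) 0 := by
    intro η hη ψ hψ
    have h1 := Run7.h283.UE.far (hpart η hη)
      (fun p : Run7.h95.IP.Part S (1 - η) => height (coords p.1.1.1)) hψ
    refine density_zero_mono (density_eq.2 h1) fun n hn => ?_
    push Not at hn
    obtain ⟨x, hx1, hx2⟩ := hn
    have h2 : x ∈ Small α η n := hx2
    rw [hSmall, Run7.h95.IP.VV_eq] at h2
    obtain ⟨p, hp, hpx⟩ := h2
    refine ⟨p, hp, ?_⟩
    rw [show p.1.1 = x from hpx]
    exact hx1
  refine ⟨main1, ?_, ?_, ?_⟩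
  · intro ε hε
    obtain ⟨C, ν, hC, hν, hthin⟩ := Run7.h95.IP.thin hq hα0 hα' (κ := ε / 2) (by linarith)
    refine ⟨{x | counting α ⊤ x < (q - ε / 2) * height (coords x.1)}, ⟨C, ν, hν, ?_⟩,
      ⟨c₁, X₀, hc₁, ?_⟩, ?_⟩
    · intro X hX
      have hf : {x : Points α | x ∈ {x : Points α | counting α ⊤ x <
          (q - ε / 2) * height (coords x.1)} ∧ Real.exp (counting α ⊤ x) ≤ X}.Finite := by
        refine (hfin X).subset fun x hx => ?_
        rw [Set.mem_ofPred_eq, ← hexp]
        exact hx.2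
      refine ⟨hf, ?_⟩
      have h1 := hthin X hX (hf.toFinset.image (toPP α)) (fun y hy => by
        obtain ⟨x, hx, rfl⟩ := Finset.mem_image.1 hy
        obtain ⟨g1, g2⟩ := (Set.Finite.mem_toFinset hf).1 hx
        rw [hexp, hSdef] at g2
        have g3 : counting α ⊤ x < (q - ε / 2) * height (coords x.1) := g1
        rw [htop, hSdef, coords_eq] at g3
        exact ⟨g2, g3⟩)
      rw [Finset.card_image_of_injective _ (toPP α).injective] at h1
      rwa [Set.ncard_eq_toFinset_card _ hf]
    · intro X hX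
      have hf : {x : Points α | Real.exp (counting α ⊤ x) ≤ X}.Finite := by
        simp only [hexp]
        exact hfin X
      refine ⟨hf, ?_⟩
      obtain ⟨F, hF, hcard⟩ := hlow X hX
      refine hcard.trans ?_
      rw [Nat.cast_le, Set.ncard_eq_toFinset_card _ hf,
        ← Finset.card_image_of_injective F (toPP α).symm.injective]
      refine Finset.card_le_card fun y hy => ?_
      obtain ⟨x, hx, rfl⟩ := Finset.mem_image.1 hy
      rw [Set.Finite.mem_toFinset, Set.mem_ofPred_eq, hexp, hSdef]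
      exact hF x hx
    · intro ψ hψ
      have hε2 : 1 - 2 / (q : ℝ) - ε / (2 * q) < 1 - 2 / (q : ℝ) := by
        have : 0 < ε / (2 * (q : ℝ)) := by positivity
        linarith
      refine density_zero_mono (main1 (1 - 2 / (q : ℝ) - ε / (2 * q)) hε2 ψ hψ) fun n hn => ?_
      intro hcon
      apply hn
      intro x hxE hxψ
      have h1 := hcon x hxψ
      have h2 : (q - ε / 2) * height (coords x.1) ≤ counting α ⊤ x := not_lt.1 hxE
      have h3 : 0 ≤ height (coords x.1) := by
        rw [coords_eq]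
        exact Run7.h95.IP.hr_co_nonneg x.1
      have h4 : 0 ≤ counting α n x := by
        rw [hcnt]
        exact Real.log_nonneg (Pool.Agent.TH876.Loc.one_le_nn _)
      by_cases h5 : 0 ≤ 1 - 2 / (q : ℝ) - ε / (2 * q)
      · have h6 := mul_le_mul_of_nonneg_left h2 h5
        have h7 : (q - 2 - ε) * height (coords x.1) ≤
            (1 - 2 / (q : ℝ) - ε / (2 * q)) * ((q - ε / 2) * height (coords x.1)) := by
          rw [← mul_assoc]
          refine mul_le_mul_of_nonneg_right ?_ h3
          have h8 : (1 - 2 / (q : ℝ) - ε / (2 * q)) * (q - ε / 2) =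
              q - 2 - ε + ε / q + ε ^ 2 / (4 * q) := by
            field_simp
            ring
          rw [h8]
          have h9 : 0 ≤ ε / (q : ℝ) := by positivity
          have h10 : 0 ≤ ε ^ 2 / (4 * (q : ℝ)) := by positivity
          linarith
        linarith
      · push Not at h5
        have h6 : (q : ℝ) - 2 - ε ≤ 0 := by
          have h7 : (1 - 2 / (q : ℝ) - ε / (2 * q)) * q < 0 := mul_neg_of_neg_of_pos h5 hq0
          have h8 : (1 - 2 / (q : ℝ) - ε / (2 * q)) * q = q - 2 - ε / 2 := by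
            field_simp
          rw [h8] at h7
          linarith
        exact (mul_nonpos_of_nonpos_of_nonneg h6 h3).trans h4
  · intro η hη
    refine ⟨fun n hn => ?_, ?_⟩
    · rw [hSmall]
      exact Run7.h95.IP.VV_finite hfin (by linarith) hn
    · obtain ⟨w, hw0, hw1, hw⟩ := Run7.h95.IP.VV_law (hpart η hη)
      refine ⟨w, hw0, hw1, fun Φ => ?_⟩
      have h1 := hw Φ
      rw [← density_eq] at h1
      simpa only [hSmall] using h1
  · intro η hη δ hδ
    obtain ⟨C, hC⟩ := Run7.h95.IP.part_tail hθ0.le hc₂ hup' (ρ := 1 - η) (by linarith) hδ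
    refine ⟨C, fun Z N hZ hN => ?_⟩
    have h1 := hC Z N hZ (by linarith)
    rw [ncard_sep]
    simp only [hexp, hSmall]
    refine h1.trans (le_of_eq ?_)
    congr 3
    ring

end Pool.Agent.Results.MP_9ec3f0_nt.UniformInS
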